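import Pool.Agent.MP_aef39a_lc.H46.Main

/-!
The bound `7/48` with a gain proportional to the corank of a given (not too long) word.
-/

namespace Pool.Agent.MP_aef39a_lc.H46

open Pool.Agent.MP_aef39a_lc

variable {Q A : Type}

/-- A stable scale above a given word. -/
theorem scaleW [Fintype Q] [DecidableEq Q] (δ : Q → A → Q) (ψ m : ℕ)
    (hm : Fintype.card Q < m * ψ) (u : List A) (P : ℕ) (hP : u.length + Fintype.card Q ≤ P) :
    ∃ w₀ : List A, w₀.length ≤ 2 ^ m * P ∧ rk δ w₀ ≤ rk δ u ∧ ∀ v : List A,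
      v.length ≤ w₀.length + Fintype.card Q → rk δ w₀ ≤ rk δ (w₀ ++ v) + ψ := by
  by_contra hne
  push Not at hne
  have key : ∀ i, i ≤ m → ∃ w : List A, w.length + Fintype.card Q ≤ 2 ^ i * P ∧
      rk δ w + i * ψ ≤ rk δ u := by
    intro i
    induction i with
    | zero => intro _; exact ⟨u, by simpa using hP, by simp⟩
    | succ i ih =>
      intro hi
      obtain ⟨w, h1, h2⟩ := ih (by omega)
      have h3 : 2 ^ i * P ≤ 2 ^ m * P :=
        Nat.mul_le_mul_right _ (Nat.pow_le_pow_right (by norm_num) (by omega))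
      obtain ⟨v, hv, hr⟩ := hne w (by omega) (by omega)
      refine ⟨w ++ v, ?_, ?_⟩
      · rw [List.length_append, pow_succ, mul_comm (2 ^ i) 2, mul_assoc]; omega
      · rw [add_mul, one_mul]; omega
  obtain ⟨w, _, h2⟩ := key m le_rfl
  have := rk_le δ u
  omega

theorem polym (x : ℝ) (hx : 0 ≤ x) :
    ((1 - x) / 2 - x ^ 2) * x ^ 2 + (1 - ((1 + x) / 2) ^ 3) / 6 ≤ 7 / 48 - x / 2000 := by
  have h : 0 ≤ x ^ 3 + 25 / 48 * x ^ 2 - 21 / 48 * x + 1 / 16 - 1 / 2000 := by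
    nlinarith [mul_nonneg hx (sq_nonneg (x - 246 / 1000)), sq_nonneg (x - 246 / 1000)]
  nlinarith [mul_nonneg hx h]

theorem optm (x y : ℝ) (hx : 0 ≤ x) (hy : 0 ≤ y) (hx1 : x ≤ 51 / 100) :
    max 0 ((1 - x) / 2 - y) * x ^ 2 + (1 - ((1 + x) / 2) ^ 3) / 6 ≤ 7 / 48 - x / 2000 ∨
      ∃ z : ℝ, 1 / 2 ≤ z ∧ z ≤ (1 + x) / 2 ∧ max 0 (1 / 2 - x - y) * y +
        ((1 + x) / 2 - z) * x ^ 2 + (1 - ((1 + x) / 2) ^ 3) / 6 + (z ^ 3 - (1 / 2) ^ 3) / 6 ≤
          7 / 48 - x / 2000 := by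
  have hq : max 0 (1 / 2 - x - y) * y ≤ (1 / 2 - x) ^ 2 / 4 := by
    rcases le_total 0 (1 / 2 - x - y) with h | h
    · rw [max_eq_right h]
      nlinarith [sq_nonneg (1 / 2 - x - 2 * y)]
    · rw [max_eq_left h, zero_mul]
      positivity
  by_cases h3 : x ≤ 3 / 10
  · have hp := polym x hx
    by_cases h2 : x ^ 2 ≤ y
    · left
      have h3 : max 0 ((1 - x) / 2 - y) ≤ (1 - x) / 2 - x ^ 2 :=
        max_le (by nlinarith) (by linarith)
      have h4 := mul_le_mul_of_nonneg_right h3 (sq_nonneg x)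
      linarith
    push Not at h2
    refine Or.inr ⟨1 / 2, le_rfl, by linarith, ?_⟩
    have h4 : x ^ 2 ≤ 9 / 100 := by nlinarith
    rw [max_eq_right (by linarith)]
    have h5 : 0 ≤ (x ^ 2 - y) * (1 / 2 - x - x ^ 2 - y) :=
      mul_nonneg (by linarith) (by linarith)
    nlinarith
  push Not at h3
  right
  by_cases h4 : x ≤ 5 / 14
  · refine ⟨1 / 2, le_rfl, by linarith, ?_⟩
    have h5 : 0 ≤ (x - 3 / 10) * (5 / 14 - x) := mul_nonneg (by linarith) (by linarith)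
    nlinarith [mul_nonneg hx h5]
  push Not at h4
  refine ⟨7 / 5 * x, by linarith, by linarith, ?_⟩
  have h5 : 0 ≤ (x - 5 / 14) * (51 / 100 - x) := mul_nonneg (by linarith) (by linarith)
  have h6 : 0 ≤ 1 - x := by linarith
  nlinarith [mul_nonneg h6 h5]

/-- The homogeneous form of `optm`. -/
theorem optm' (n h j : ℝ) (hn : 0 < n) (hh : 0 ≤ h) (hj : 0 ≤ j) (hhn : h ≤ 51 / 100 * n) :
    max 0 ((n - h) / 2 - j) * h ^ 2 + (n ^ 3 - ((n + h) / 2) ^ 3) / 6 ≤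
        7 / 48 * n ^ 3 - h * n ^ 2 / 2000 ∨
      ∃ z : ℝ, n / 2 ≤ z ∧ z ≤ (n + h) / 2 ∧ max 0 (n / 2 - h - j) * j * n +
        ((n + h) / 2 - z) * h ^ 2 + (n ^ 3 - ((n + h) / 2) ^ 3) / 6 + (z ^ 3 - (n / 2) ^ 3) / 6 ≤
          7 / 48 * n ^ 3 - h * n ^ 2 / 2000 := by
  obtain ⟨x, rfl⟩ : ∃ x, h = n * x := ⟨h / n, by field_simp⟩
  obtain ⟨y, rfl⟩ : ∃ y, j = n * y := ⟨j / n, by field_simp⟩
  have hx : 0 ≤ x := nonneg_of_mul_nonneg_right hh hn
  have hy : 0 ≤ y := nonneg_of_mul_nonneg_right hj hn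
  have hx1 : x ≤ 51 / 100 := by nlinarith
  have h3 : 0 ≤ n ^ 3 := by positivity
  have hm : ∀ s : ℝ, max 0 (n * s) = n * max 0 s := fun s => by
    rw [mul_max_of_nonneg _ _ hn.le, mul_zero]
  rcases optm x y hx hy hx1 with h | ⟨z, h1, h2, h⟩
  · left
    have e : (n - n * x) / 2 - n * y = n * ((1 - x) / 2 - y) := by ring
    rw [e, hm]
    have := mul_le_mul_of_nonneg_left h h3
    linarith
  · refine Or.inr ⟨n * z, by nlinarith, by nlinarith, ?_⟩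
    have e : n / 2 - n * x - n * y = n * (1 / 2 - x - y) := by ring
    rw [e, hm]
    have := mul_le_mul_of_nonneg_left h h3
    linarith

/-- The real arithmetic at the end. -/
theorem finishm (n h N c L T e l k₀ k₂ K β γ z W P g : ℝ) (hn : 1 ≤ n) (hN : 0 < N) (hc : 0 ≤ c)
    (hP : 0 ≤ P) (hg : g * n ^ 2 ≤ h * n ^ 2)
    (hL : L ≤ c * P) (hT : T ≤ h ^ 2 + 3 * n ^ 2 / N + c * P) (he : e ≤ n / N + 1)
    (hh : 0 ≤ h) (hhn : h ≤ n) (hl : l ≤ γ + c * (P * n)) (hk₀ : k₀ ≤ (n - h) / 2)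
    (hβ : k₂ - k₀ ≤ β + 2) (hβn : k₂ - k₀ ≤ n) (hβ0 : 0 ≤ k₂ - k₀)
    (hz : (n - k₂) ^ 3 - (n - K) ^ 3 ≤ z + 7 * n ^ 2)
    (hopt : γ + β * h ^ 2 + (n ^ 3 - ((n + h) / 2) ^ 3) / 6 + z / 6 ≤
      7 / 48 * n ^ 3 - h * n ^ 2 / 2000)
    (hW : W ≤ l + (n * L + (n ^ 3 - (n - k₀) ^ 3) / 6 + (k₂ - k₀) * T + (e + 2) * n ^ 2 +
        ((n - k₂) ^ 3 - (n - K) ^ 3) / 6 + n ^ 2)) :
    W ≤ (7 / 48 + 4 / N) * n ^ 3 - g * n ^ 2 / 2000 + 3 * c * (P * n) + 10 * n ^ 2 := by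
  have h1 : n * L ≤ n * (c * P) := mul_le_mul_of_nonneg_left hL (by linarith)
  have h2 : ((n + h) / 2) ^ 3 ≤ (n - k₀) ^ 3 :=
    pow_le_pow_left₀ (by linarith) (by linarith) 3
  have h3 : 0 ≤ 3 * n ^ 2 / N + c * P := by positivity
  have h4 : (k₂ - k₀) * T ≤ (k₂ - k₀) * (h ^ 2 + (3 * n ^ 2 / N + c * P)) :=
    mul_le_mul_of_nonneg_left (by linarith) hβ0
  have h5 : (k₂ - k₀) * h ^ 2 ≤ (β + 2) * h ^ 2 := mul_le_mul_of_nonneg_right hβ (sq_nonneg h)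
  have h6 : (k₂ - k₀) * (3 * n ^ 2 / N + c * P) ≤ n * (3 * n ^ 2 / N + c * P) :=
    mul_le_mul_of_nonneg_right hβn h3
  have h7 : h ^ 2 ≤ n ^ 2 := pow_le_pow_left₀ hh hhn 2
  have h8 : (e + 2) * n ^ 2 ≤ (n / N + 3) * n ^ 2 :=
    mul_le_mul_of_nonneg_right (by linarith) (sq_nonneg n)
  have h9 : 0 ≤ n ^ 2 := sq_nonneg n
  have e1 : n * (3 * n ^ 2 / N + c * P) = 3 * (n ^ 3 / N) + c * (P * n) := by ring
  have e2 : (n / N + 3) * n ^ 2 = n ^ 3 / N + 3 * n ^ 2 := by ring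
  have e3 : (7 / 48 + 4 / N) * n ^ 3 = 7 / 48 * n ^ 3 + 4 * (n ^ 3 / N) := by ring
  rw [e3]
  linarith

/-- The bound for large strongly connected automata, with a gain from a word of small rank. -/
theorem largeW [Fintype Q] [DecidableEq Q] [Nonempty Q] (δ : Q → A → Q)
    (hsc : StronglyConnected δ)
    (hs : ∃ w, IsReset δ w) (N : ℕ) (hN : 0 < N) (hn : 4 * N ^ 2 ≤ Fintype.card Q)
    (v : List A) (P g : ℕ) (hP : v.length + Fintype.card Q ≤ P)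
    (hg : rk δ v + g ≤ Fintype.card Q) :
    ∃ w : List A, IsReset δ w ∧ (w.length : ℝ) ≤ (7 / 48 + 4 / (N : ℝ)) * Fintype.card Q ^ 3 -
      g * Fintype.card Q ^ 2 / 2000 +
      3 * ((4 * N ^ 2 + 2) * (2 ^ (4 * N ^ 2) + 1) + 5 : ℝ) * (P * Fintype.card Q) +
        10 * Fintype.card Q ^ 2 := by
  set m := 4 * N ^ 2 with hm
  have hm0 : 0 < m := by positivity
  have hNm : N ≤ m := by nlinarith
  have hM : Fintype.card Q < m * (Fintype.card Q / m + 1) := Nat.lt_mul_div_succ _ hm0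
  obtain ⟨w₀, hL, hrv, hψ⟩ := scaleW δ (Fintype.card Q / m + 1) m hM v P hP
  have hp : 2 * Fintype.card Q * (Fintype.card Q / m + 1) ≤
      (Fintype.card Q / N + 1) * (Fintype.card Q / N + 1) := by
    have a1 : Fintype.card Q < N * (Fintype.card Q / N + 1) := Nat.lt_mul_div_succ _ hN
    have a2 : m * (Fintype.card Q / m) ≤ Fintype.card Q := Nat.mul_div_le _ _
    generalize Fintype.card Q / N + 1 = D at *
    generalize Fintype.card Q / m = g at *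
    generalize Fintype.card Q = n at *
    refine Nat.le_of_mul_le_mul_left (c := m) ?_ hm0
    have a3 : n * n ≤ (N * D) * (N * D) := Nat.mul_le_mul a1.le a1.le
    have a4 : n * (m * g) ≤ n * n := Nat.mul_le_mul_left _ a2
    have a5 : n * m ≤ n * n := Nat.mul_le_mul_left _ hn
    have a6 : m * (D * D) = 4 * ((N * D) * (N * D)) := by rw [hm]; ring
    have a7 : m * (2 * n * (g + 1)) = 2 * (n * (m * g)) + 2 * (n * m) := by ring
    omega
  have hkey := fun (S : Finset Q) hS hk h2 => key δ hsc w₀ _ hψ hs (Fintype.card Q / N + 1)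
    (Fintype.card Q / N + 1) m hp hM (S := S) hS hk h2
  have hψD : Fintype.card Q / m + 1 ≤ Fintype.card Q / N + 1 :=
    Nat.add_le_add_right (Nat.div_le_div_left hNm hN) 1
  have hD : ((Fintype.card Q / N + 1 : ℕ) : ℝ) ≤ Fintype.card Q / (N : ℝ) + 1 := by
    push_cast
    exact add_le_add_left Nat.cast_div_le 1
  have hr := rk_le δ w₀
  have hn1 : 1 ≤ Fintype.card Q := Fintype.card_pos
  obtain ⟨j, u₀, hu₀, hj, hav⟩ := avoiding δ hs w₀
  have hpre := prefixes δ (w₀.length + (j + 1) * Fintype.card Q)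
  generalize Fintype.card Q / m + 1 = ψ at *
  generalize Fintype.card Q / N + 1 = D at *
  set T := (Fintype.card Q - rk δ w₀) * (D + (Fintype.card Q - rk δ w₀) + ψ) +
    Fintype.card Q * D + 1 + Fintype.card Q + m * (w₀.length + Fintype.card Q) with hT
  have hgr := greedy δ w₀ (cost (Fintype.card Q) (rk δ w₀) D T) (by
    intro S hS h2
    unfold cost
    split_ifs with h
    · rcases le_total (fp (Fintype.card Q) S.card) T with h' | h'
      · rw [min_eq_left h']; exact frankl δ hs S h2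
      · rw [min_eq_right h']; exact hkey S hS h h2
    · exact frankl δ hs S h2)
  have hreset := reset_of_rk δ (w := u₀)
  have hgr0 := greedy δ [] (fp (Fintype.card Q)) (fun S _ hS => frankl δ hs S hS) (rk δ w₀) w₀
    le_rfl
  have hgh : rk δ w₀ + g ≤ Fintype.card Q := by omega
  have hnP : Fintype.card Q ≤ P := by omega
  clear hkey hψ hp hM hg hP hrv
  generalize rk δ w₀ = r at *
  generalize w₀.length = L at *
  obtain ⟨h, hh⟩ := Nat.exists_eq_add_of_le hr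
  have hsub : Fintype.card Q - r = h := by omega
  rw [hsub] at hT
  generalize Fintype.card Q = n at *
  set c : ℝ := (4 * N ^ 2 + 2) * (2 ^ m + 1) + 5 with hc
  have r1 : (1 : ℝ) ≤ n := by exact_mod_cast hn1
  have rN : (0 : ℝ) < N := by exact_mod_cast hN
  have rm : (m : ℝ) = 4 * N ^ 2 := by rw [hm]; push_cast; rfl
  have rm0 : (0 : ℝ) ≤ m := Nat.cast_nonneg _
  have rh : (n : ℝ) = r + h := by exact_mod_cast hh
  have rh0 : (0 : ℝ) ≤ h := Nat.cast_nonneg _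
  have rr0 : (0 : ℝ) ≤ r := Nat.cast_nonneg _
  have rj0 : (0 : ℝ) ≤ j := Nat.cast_nonneg _
  have rL0 : (0 : ℝ) ≤ L := Nat.cast_nonneg _
  have rD0 : (0 : ℝ) ≤ D := Nat.cast_nonneg _
  have rjr : (j : ℝ) ≤ r := by exact_mod_cast (by omega : j ≤ r)
  have rL : (L : ℝ) ≤ 2 ^ m * P := by exact_mod_cast hL
  have rnP : (n : ℝ) ≤ P := by exact_mod_cast hnP
  have rgh : (g : ℝ) ≤ h := by exact_mod_cast (by omega : g ≤ h)
  have rg0 : (0 : ℝ) ≤ g := Nat.cast_nonneg _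
  have rP : (0 : ℝ) ≤ 2 ^ m := by positivity
  rw [← rm] at hc
  have rc0 : 0 ≤ c := by rw [hc]; positivity
  have rc : 2 * 2 ^ m + 7 ≤ c := by rw [hc]; linarith [mul_nonneg rm0 rP]
  have rn0 : (0 : ℝ) ≤ n := Nat.cast_nonneg _
  have rnn : (n : ℝ) ≤ n ^ 2 := by linarith [mul_le_mul_of_nonneg_left r1 rn0]
  have rP0 : (0 : ℝ) ≤ P := Nat.cast_nonneg _
  have rLc : (L : ℝ) ≤ c * P :=
    rL.trans (mul_le_mul_of_nonneg_right (by linarith) rP0)
  have rT : (T : ℝ) ≤ h ^ 2 + 3 * n ^ 2 / N + c * P := by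
    have a1 : (ψ : ℝ) ≤ D := by exact_mod_cast hψD
    have a0 : (0 : ℝ) ≤ ψ := Nat.cast_nonneg _
    have a2 : (h : ℝ) * (D + ψ) ≤ n * (D + D) := mul_le_mul (by linarith) (by linarith)
      (by linarith) (by linarith)
    have a3 : (n : ℝ) * D ≤ n * (n / N + 1) := mul_le_mul_of_nonneg_left hD (by linarith)
    have a4 : (m : ℝ) * L ≤ m * (2 ^ m * P) := mul_le_mul_of_nonneg_left rL rm0
    have a5 : (0 : ℝ) ≤ 2 ^ m * P := by positivity
    have a6 : (m : ℝ) * n ≤ m * P := mul_le_mul_of_nonneg_left rnP rm0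
    have e : 3 * (n : ℝ) ^ 2 / N = 3 * (n * (n / N)) := by ring
    rw [hT, hc, e]
    push_cast
    linarith
  have ru : (u₀.length : ℝ) ≤ L + n ^ 2 := by
    have a1 : (u₀.length : ℝ) ≤ L + j * n := by exact_mod_cast hu₀
    have a2 : (j : ℝ) * n ≤ n * n := mul_le_mul_of_nonneg_right (by linarith) rn0
    linarith
  have rPP : (P : ℝ) ≤ P * n := le_mul_of_one_le_right rP0 r1
  have rnPn : (n : ℝ) ^ 2 ≤ P * n := by linarith [mul_le_mul_of_nonneg_right rnP rn0]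
  have rLn : (L : ℝ) ≤ 2 ^ m * (P * n) := by
    have : (2 : ℝ) ^ m * P ≤ 2 ^ m * (P * n) := mul_le_mul_of_nonneg_left rPP rP
    linarith
  have rcn : (2 * 2 ^ m + 7) * ((P : ℝ) * n) ≤ c * (P * n) :=
    mul_le_mul_of_nonneg_right rc (by positivity)
  have rPn : (0 : ℝ) ≤ 2 ^ m * (P * n) := by positivity
  have rn2 : (0 : ℝ) ≤ n ^ 2 := sq_nonneg _
  have rgn : (g : ℝ) * n ^ 2 ≤ h * n ^ 2 := mul_le_mul_of_nonneg_right rgh rn2
  have rhn : (h : ℝ) * n ^ 2 ≤ n * n ^ 2 := mul_le_mul_of_nonneg_right (by linarith) rn2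
  have rn3 : (0 : ℝ) ≤ n ^ 3 := by positivity
  have rN3 : (7 / 48 + 4 / (N : ℝ)) * n ^ 3 = 7 / 48 * n ^ 3 + 4 * (n ^ 3 / N) := by ring
  have rN4 : (0 : ℝ) ≤ n ^ 3 / N := by positivity
  rcases hav with hav | hav
  · refine ⟨u₀, hreset hav, ?_⟩
    rw [rN3]
    linarith
  by_cases hbig : 51 / 100 * (n : ℝ) ≤ h
  · obtain ⟨w, hw, hl⟩ := hgr0
    refine ⟨w, hw, ?_⟩
    have a1 : (w.length : ℝ) ≤ L + ∑ k ∈ Finset.Ioc 0 r, (fp n k : ℝ) := by
      simp only [List.length_nil, zero_add] at hl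
      exact_mod_cast hl
    have a2 := sum_fp n 0 r (Nat.zero_le _) (by omega)
    simp only [Nat.cast_zero, sub_zero] at a2
    have a3 : (n : ℝ) - r = h := by linarith
    rw [a3] at a2
    have a4 : (n : ℝ) * r ≤ n * n := mul_le_mul_of_nonneg_left (by linarith) rn0
    have a5 : (51 / 100 * (n : ℝ)) ^ 3 ≤ h ^ 3 := pow_le_pow_left₀ (by positivity) hbig 3
    rw [rN3]
    linarith
  have hk₀ : r ≤ 2 * (r / 2 - 1) + 3 := by omega
  have rk₀ : (r : ℝ) ≤ 2 * ((r / 2 - 1 : ℕ) : ℝ) + 3 := by exact_mod_cast hk₀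
  have rk₁ : 2 * ((r / 2 - 1 : ℕ) : ℝ) ≤ r := by
    exact_mod_cast (by omega : 2 * (r / 2 - 1) ≤ r)
  have rk₂ : (0 : ℝ) ≤ ((r / 2 - 1 : ℕ) : ℝ) := Nat.cast_nonneg _
  rcases optm' n h j (by linarith) rh0 rj0 (not_le.1 hbig).le with hopt | ⟨z, hz1, hz2, hopt⟩
  · obtain ⟨w, hw, hl⟩ := hgr (max (r - j) (r / 2 - 1)) u₀ (by omega)
    have hs := sum_cost n r D T L (r / 2 - 1) (max (r - j) (r / 2 - 1)) _ (le_max_right _ _) le_rfl
      (by omega) hk₀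
    have hl' : (w.length : ℝ) ≤ u₀.length + ((∑ k ∈ Finset.Ioc 0 (max (r - j) (r / 2 - 1)),
        (L + cost n r D T k) : ℕ) : ℝ) := by exact_mod_cast hl
    have b0 : ((r / 2 - 1 : ℕ) : ℝ) ≤ ((max (r - j) (r / 2 - 1) : ℕ) : ℝ) := by
      exact_mod_cast le_max_right _ _
    have b1 : ((max (r - j) (r / 2 - 1) : ℕ) : ℝ) ≤ n := by
      exact_mod_cast (by omega : max (r - j) (r / 2 - 1) ≤ n)
    have b2 : ((max (r - j) (r / 2 - 1) : ℕ) : ℝ) - ((r / 2 - 1 : ℕ) : ℝ) ≤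
        max 0 (((n : ℝ) - h) / 2 - j) + 2 := by
      have c1 := le_max_left 0 (((n : ℝ) - h) / 2 - j)
      have c2 := le_max_right 0 (((n : ℝ) - h) / 2 - j)
      rcases le_total (r - j) (r / 2 - 1) with h' | h'
      · rw [max_eq_right h']; linarith
      · rw [max_eq_left h', Nat.cast_sub (by omega)]; linarith
    exact ⟨w, hw, finishm n h N c L T D u₀.length _ _ _ _ 0 0 _ P g r1 rN rc0 rP0 rgn rLc
      rT hD rh0 (by linarith) (by linarith) (by linarith) b2 (by linarith) (by linarith)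
      (by linarith) (by linarith) (hl'.trans (add_le_add_right hs _))⟩
  · obtain ⟨u, hu, hul⟩ := hpre hav (r - j) u₀ (by omega)
    obtain ⟨w, hw, hl⟩ := hgr (n / 2) u hu
    have z0 : 0 ≤ z := by linarith
    have z1 : z ≤ ⌈z⌉₊ := Nat.le_ceil z
    have z2 : (⌈z⌉₊ : ℝ) < z + 1 := Nat.ceil_lt_add_one z0
    have z3 : ⌈z⌉₊ ≤ n := Nat.ceil_le.2 (by linarith)
    have z4 : n ≤ 2 * ⌈z⌉₊ := by
      have : (n : ℝ) ≤ 2 * ⌈z⌉₊ := by linarith
      exact_mod_cast this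
    have z5 : 2 * ⌈z⌉₊ < n + h + 2 := by
      have : 2 * (⌈z⌉₊ : ℝ) < n + h + 2 := by linarith
      exact_mod_cast this
    have hs := sum_cost n r D T L (r / 2 - 1) (n - ⌈z⌉₊) (n / 2) (by omega) (by omega)
      (by omega) hk₀
    have hl' : (w.length : ℝ) ≤ u.length + ((∑ k ∈ Finset.Ioc 0 (n / 2),
        (L + cost n r D T k) : ℕ) : ℝ) := by exact_mod_cast hl
    have b0 : ((r / 2 - 1 : ℕ) : ℝ) ≤ ((n - ⌈z⌉₊ : ℕ) : ℝ) := by
      exact_mod_cast (by omega : r / 2 - 1 ≤ n - ⌈z⌉₊)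
    have b1 : ((n - ⌈z⌉₊ : ℕ) : ℝ) = n - ⌈z⌉₊ := Nat.cast_sub z3
    have b2 : 2 * ((n / 2 : ℕ) : ℝ) ≤ n := by exact_mod_cast (by omega : 2 * (n / 2) ≤ n)
    have b3 : (n : ℝ) ≤ 2 * ((n / 2 : ℕ) : ℝ) + 1 := by
      exact_mod_cast (by omega : n ≤ 2 * (n / 2) + 1)
    have b4 : ((r - j - n / 2 : ℕ) : ℝ) ≤ max 0 ((n : ℝ) / 2 - h - j) + 1 := by
      have c1 := le_max_left 0 ((n : ℝ) / 2 - h - j)
      have c2 := le_max_right 0 ((n : ℝ) / 2 - h - j)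
      rcases le_total (r - j) (n / 2) with h' | h'
      · rw [Nat.sub_eq_zero_of_le h', Nat.cast_zero]; linarith
      · rw [Nat.cast_sub h', Nat.cast_sub (by omega)]; linarith
    have b5 : ((r - j - n / 2 : ℕ) : ℝ) ≤ n := by exact_mod_cast (by omega : r - j - n / 2 ≤ n)
    have b6 : (u.length : ℝ) ≤ max 0 ((n : ℝ) / 2 - h - j) * j * n + c * (P * n) := by
      have c1 : (u.length : ℝ) ≤ u₀.length + ((r - j - n / 2 : ℕ) : ℝ) * (L + (j + 1) * n) := by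
        exact_mod_cast hul
      have c2 : ((r - j - n / 2 : ℕ) : ℝ) * (L + n) ≤ n * (2 ^ m * P + n) :=
        mul_le_mul b5 (by linarith) (by linarith) (by linarith)
      have c3 : ((r - j - n / 2 : ℕ) : ℝ) * (j * n) ≤
          (max 0 ((n : ℝ) / 2 - h - j) + 1) * (j * n) :=
        mul_le_mul_of_nonneg_right b4 (by positivity)
      have c4 : (j : ℝ) * n ≤ n * n := mul_le_mul_of_nonneg_right (by linarith) (by linarith)
      linarith
    have b7 : ((n : ℝ) - ((n - ⌈z⌉₊ : ℕ) : ℝ)) ^ 3 - ((n : ℝ) - ((n / 2 : ℕ) : ℝ)) ^ 3 ≤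
        z ^ 3 - ((n : ℝ) / 2) ^ 3 + 7 * n ^ 2 := by
      have c1 : ((n : ℝ) - ((n - ⌈z⌉₊ : ℕ) : ℝ)) ^ 3 ≤ (z + 1) ^ 3 :=
        pow_le_pow_left₀ (by linarith) (by linarith) 3
      have c2 : ((n : ℝ) / 2) ^ 3 ≤ ((n : ℝ) - ((n / 2 : ℕ) : ℝ)) ^ 3 :=
        pow_le_pow_left₀ (by linarith) (by linarith) 3
      have c3 : z ^ 2 ≤ n ^ 2 := pow_le_pow_left₀ z0 (by linarith) 2
      have c4 : (1 : ℝ) ≤ n ^ 2 := by linarith
      linarith
    exact ⟨w, hw, finishm n h N c L T D u.length _ _ _ ((n + h) / 2 - z) _ _ _ P g r1 rN rc0 rP0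
      rgn rLc
      rT hD rh0 (by linarith) b6 (by linarith) (by linarith) (by linarith)
      (by linarith) b7 hopt (hl'.trans (add_le_add_right hs _))⟩

end Pool.Agent.MP_aef39a_lc.H46
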