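import Pool.Agent.MP_aef39a_lc.H46B.Third
import Pool.Agent.MP_aef39a_lc.H46B.Marg

/-!
Reset words of length `(7/48 - ε) n ^ 3 + O(n ^ 2)` for some fixed `ε > 0`.
-/

namespace Pool.Agent.MP_aef39a_lc.H46

open Pool.Agent.MP_aef39a_lc

/-- Reduction to strongly connected automata. -/
theorem reduce (κ c : ℝ) (hκ : 0 ≤ κ) (hc : 0 ≤ c)
    (H : ∀ (Q A : Type) [Fintype Q] [Nonempty Q] (δ : Q → A → Q), StronglyConnected δ →
      (∃ w, IsReset δ w) → ∃ w : List A, IsReset δ w ∧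
        (w.length : ℝ) ≤ κ * Fintype.card Q ^ 3 + c * Fintype.card Q ^ 2)
    (Q A : Type) [Fintype Q] [hQ : Nonempty Q] (δ : Q → A → Q) (hs : ∃ w, IsReset δ w) :
    ∃ w : List A, IsReset δ w ∧
      (w.length : ℝ) ≤ κ * Fintype.card Q ^ 3 + (c + 1) * Fintype.card Q ^ 2 := by
  classical
  obtain ⟨p₀⟩ := hQ
  obtain ⟨w₁, hw₁⟩ := hs
  let C : Q → Prop := fun q => ∃ u, act δ (act δ p₀ w₁) u = q
  have hC : ∀ q w, C q → C (act δ q w) := fun q w ⟨u, e⟩ => ⟨u ++ w, by rw [act_append, e]⟩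
  have hC1 : ∀ q a, C q → C (δ q a) := fun q a h => hC q [a] h
  obtain ⟨z, hz, hzC⟩ := into δ C hC (fun p => ⟨w₁, [], hw₁ p₀ p⟩) Finset.univ
  let δ' : {q // C q} → A → {q // C q} := fun q a => ⟨δ q.1 a, hC1 _ a q.2⟩
  have hact : ∀ w q, (act δ' q w).1 = act δ q.1 w := act_sub δ C hC1
  have : Nonempty {q // C q} := ⟨⟨_, [], rfl⟩⟩
  have hs' : ∃ w, IsReset δ' w := ⟨w₁, fun p q => Subtype.ext (by rw [hact, hact, hw₁])⟩
  have hsc : StronglyConnected δ' := by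
    intro p q
    obtain ⟨u, e⟩ := q.2
    exact ⟨w₁ ++ u, Subtype.ext (by rw [hact, act_append, hw₁ p.1 p₀, e])⟩
  have hle : (Fintype.card {q // C q} : ℝ) ≤ Fintype.card Q := by
    exact_mod_cast Fintype.card_subtype_le C
  have h0 : (0 : ℝ) ≤ Fintype.card {q // C q} := Nat.cast_nonneg _
  have h2 := mul_le_mul_of_nonneg_left (pow_le_pow_left₀ h0 hle 2) hc
  have h3 := mul_le_mul_of_nonneg_left (pow_le_pow_left₀ h0 hle 3) hκ
  obtain ⟨w, hw, hl⟩ := H _ A δ' hsc hs'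
  refine ⟨z ++ w, fun p q => ?_, ?_⟩
  · have e := congrArg Subtype.val
      (hw ⟨_, hzC p (Finset.mem_univ _)⟩ ⟨_, hzC q (Finset.mem_univ _)⟩)
    rw [hact, hact] at e
    rw [act_append, act_append, e]
  · have a1 : (z.length : ℝ) ≤ Fintype.card Q * Fintype.card Q := by
      rw [Finset.card_univ] at hz
      exact_mod_cast hz
    rw [List.length_append]
    push_cast
    linarith

/-- The gain from a word of small rank, with the constants hidden. -/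
theorem gain (N : ℕ) (hN : 0 < N) : ∃ c : ℝ, 0 ≤ c ∧ ∀ (Q A : Type) [Fintype Q] [DecidableEq Q]
    [Nonempty Q] (δ : Q → A → Q), StronglyConnected δ → (∃ w, IsReset δ w) →
    4 * N ^ 2 ≤ Fintype.card Q → ∀ (v : List A) (P g : ℕ), v.length + Fintype.card Q ≤ P →
    rk δ v + g ≤ Fintype.card Q → ∃ w : List A, IsReset δ w ∧
      (w.length : ℝ) ≤ (7 / 48 + 4 / (N : ℝ)) * Fintype.card Q ^ 3 -
        g * Fintype.card Q ^ 2 / 2000 + c * (P * Fintype.card Q) + 10 * Fintype.card Q ^ 2 :=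
  ⟨3 * ((4 * N ^ 2 + 2) * (2 ^ (4 * N ^ 2) + 1) + 5 : ℝ), by positivity,
    fun _ _ _ _ _ δ hsc hs hn v P g hP hg => largeW δ hsc hs N hN hn v P g hP hg⟩

/-- The case in which short words hardly lower the rank. -/
theorem flat {Q A : Type} [Fintype Q] [DecidableEq Q] [Nonempty Q] (δ : Q → A → Q)
    (hs : ∃ w, IsReset δ w) (T : ℕ)
    (hT : ∀ S : Finset Q, 2 * Fintype.card Q ≤ 5 * S.card → 2 ≤ S.card →
      ∃ p ∈ S, ∃ q ∈ S, p ≠ q ∧ Near δ T p q) :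
    ∃ w : List A, IsReset δ w ∧ (w.length : ℝ) ≤
      131 / 1000 * Fintype.card Q ^ 3 + Fintype.card Q * T + 3 * Fintype.card Q ^ 2 := by
  obtain ⟨w, hw, hl⟩ := greedy δ [] (cost (Fintype.card Q) ((4 * Fintype.card Q + 4) / 5) 0 T) (by
    intro S _ h2
    unfold cost
    split_ifs with h
    · rcases le_total (fp (Fintype.card Q) S.card) T with h' | h'
      · rw [min_eq_left h']; exact frankl δ hs S h2
      · rw [min_eq_right h']; exact hT S (by omega) h2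
    · exact frankl δ hs S h2) (Fintype.card Q) [] (rk_le δ [])
  refine ⟨w, hw, ?_⟩
  generalize Fintype.card Q = n at *
  have h1 := sum_cost n ((4 * n + 4) / 5) 0 T 0 ((4 * n + 4) / 5 / 2 - 1) n n (by omega) le_rfl
    le_rfl (by omega)
  have h2 : (w.length : ℝ) ≤
      ((∑ k ∈ Finset.Ioc 0 n, (0 + cost n ((4 * n + 4) / 5) 0 T k) : ℕ) : ℝ) := by
    simp only [List.length_nil] at hl
    exact_mod_cast hl.trans (Nat.zero_add _).le
  have h3 : 5 * (((4 * n + 4) / 5 / 2 - 1 : ℕ) : ℝ) ≤ 2 * n := by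
    exact_mod_cast (by omega : 5 * ((4 * n + 4) / 5 / 2 - 1) ≤ 2 * n)
  generalize ((4 * n + 4) / 5 / 2 - 1 : ℕ) = k at *
  have h4 : (0 : ℝ) ≤ k := Nat.cast_nonneg _
  have h5 : (0 : ℝ) ≤ n := Nat.cast_nonneg _
  have h6 : (0 : ℝ) ≤ T := Nat.cast_nonneg _
  have h7 : (3 / 5 * (n : ℝ)) ^ 3 ≤ ((n : ℝ) - k) ^ 3 :=
    pow_le_pow_left₀ (by positivity) (by linarith) 3
  have h8 : (0 : ℝ) ≤ k * T := mul_nonneg h4 h6
  have h9 : (0 : ℝ) ≤ n ^ 3 := by positivity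
  simp only [Nat.cast_zero] at h1
  linarith

theorem below : ∃ ε : ℝ, 0 < ε ∧ ∃ c : ℝ, ∀ (Q A : Type) [Fintype Q] [Nonempty Q]
    (δ : Q → A → Q), (∃ w, IsReset δ w) → ∃ w : List A, IsReset δ w ∧
      (w.length : ℝ) ≤ (7 / 48 - ε) * Fintype.card Q ^ 3 + c * Fintype.card Q ^ 2 := by
  classical
  obtain ⟨c₀, hc₀, H₀⟩ := gain 64000000 (by norm_num)
  obtain ⟨M, hM⟩ := exists_nat_gt (16000000 + 640000000 * c₀)
  have rM : (16000000 : ℝ) ≤ M := by linarith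
  have rM0 : (0 : ℝ) < M := by linarith
  have hM1 : 16000000 ≤ M := by exact_mod_cast rM
  obtain ⟨c₁, hc₁, H₁⟩ := gain (16000 * M) (by omega)
  have hε : 1 / (4000 * (M : ℝ)) ≤ 1 / 64000000000 :=
    one_div_le_one_div_of_le (by norm_num) (by linarith)
  have hε0 : 0 < 1 / (4000 * (M : ℝ)) := by positivity
  set c : ℝ := 4 * (16000 * M) ^ 2 + 2 * c₁ + c₀ * (M + 23) + 4000 * (M + 23) + 40 with hc
  have hc0 : 0 ≤ c := by rw [hc]; positivity
  refine ⟨1 / (4000 * M), hε0, c + 1, fun Q A _ _ δ hs =>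
    reduce _ c (by linarith) hc0 (fun Q A _ _ δ hsc hs => ?_) Q A δ hs⟩
  have hn1 : 1 ≤ Fintype.card Q := Fintype.card_pos
  have r1 : (1 : ℝ) ≤ Fintype.card Q := by exact_mod_cast hn1
  have r2 : (0 : ℝ) ≤ (Fintype.card Q : ℝ) ^ 2 := sq_nonneg _
  have r3 : (0 : ℝ) ≤ (Fintype.card Q : ℝ) ^ 3 := by positivity
  have p1 : (0 : ℝ) ≤ 4 * (16000 * M) ^ 2 * (Fintype.card Q : ℝ) ^ 2 := by positivity
  have p2 : (0 : ℝ) ≤ c₁ * (Fintype.card Q : ℝ) ^ 2 := by positivity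
  have p3 : (0 : ℝ) ≤ c₀ * (M + 23) * (Fintype.card Q : ℝ) ^ 2 := by positivity
  have p4 : (0 : ℝ) ≤ (M + 23) * (Fintype.card Q : ℝ) ^ 2 := by positivity
  have p5 := mul_le_mul_of_nonneg_right hε r3
  by_cases hn : 4 * (16000 * M) ^ 2 ≤ Fintype.card Q
  swap
  · obtain ⟨w, hw, hl⟩ := crude δ hs
    refine ⟨w, hw, ?_⟩
    have a1 : (w.length : ℝ) ≤ Fintype.card Q * Fintype.card Q ^ 2 := by exact_mod_cast hl
    have a2 : (Fintype.card Q : ℝ) ≤ 4 * (16000 * M) ^ 2 := by exact_mod_cast (not_le.1 hn).le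
    have a3 := mul_le_mul_of_nonneg_right a2 r2
    rw [hc]
    linarith
  have hM₀ : Fintype.card Q < 4000 * (Fintype.card Q / 4000 + 1) :=
    Nat.lt_mul_div_succ _ (by norm_num)
  have hM₁ : Fintype.card Q < M * (Fintype.card Q / M + 1) := Nat.lt_mul_div_succ _ (by omega)
  have h01 : Fintype.card Q / M + 1 ≤ Fintype.card Q / 4000 + 1 :=
    Nat.add_le_add_right (Nat.div_le_div_left (by omega) (by norm_num)) 1
  have rψ₀ : ((Fintype.card Q / 4000 + 1 : ℕ) : ℝ) ≤ Fintype.card Q / 4000 + 1 := by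
    push_cast
    exact add_le_add_left Nat.cast_div_le 1
  have rψ₁ : ((Fintype.card Q / M + 1 : ℕ) : ℝ) ≤ Fintype.card Q / M + 1 := by
    push_cast
    exact add_le_add_left Nat.cast_div_le 1
  generalize Fintype.card Q / 4000 + 1 = ψ₀ at *
  generalize Fintype.card Q / M + 1 = ψ₁ at *
  have rM₀ : (Fintype.card Q : ℝ) ≤ 4000 * ψ₀ := by exact_mod_cast hM₀.le
  have rM₁ : (Fintype.card Q : ℝ) ≤ M * ψ₁ := by exact_mod_cast hM₁.le
  by_cases h₁ : ∀ v : List A, v.length ≤ Fintype.card Q → Fintype.card Q ≤ rk δ v + ψ₁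
  swap
  · push Not at h₁
    obtain ⟨v, hv, hr⟩ := h₁
    obtain ⟨w, hw, hl⟩ := H₁ Q A δ hsc hs hn v (2 * Fintype.card Q) ψ₁ (by omega) hr.le
    refine ⟨w, hw, hl.trans ?_⟩
    have a1 : (Fintype.card Q : ℝ) / M ≤ ψ₁ := by
      rw [div_le_iff₀ rM0]; linarith
    have a2 := mul_le_mul_of_nonneg_right a1 r2
    have e1 : (4 : ℝ) / ((16000 * M : ℕ) : ℝ) = 1 / 4000 * (1 / M) := by
      push_cast; field_simp; norm_num
    have e2 : 1 / (4000 * (M : ℝ)) = 1 / 4000 * (1 / M) := by field_simp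
    have e3 : (Fintype.card Q : ℝ) / M = Fintype.card Q * (1 / M) := by ring
    rw [e3] at a2
    rw [e1, e2, hc]
    push_cast
    linarith
  set B := Fintype.card Q * (20 * ψ₁) + 1 + Fintype.card Q + M * Fintype.card Q with hB
  have rB : (Fintype.card Q : ℝ) + B ≤
      20 * (Fintype.card Q ^ 2 * (1 / M)) + (M + 23) * Fintype.card Q := by
    have a1 := mul_le_mul_of_nonneg_left rψ₁ (by linarith : (0 : ℝ) ≤ Fintype.card Q)
    have e3 : (Fintype.card Q : ℝ) / M = Fintype.card Q * (1 / M) := by ring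
    rw [e3] at a1
    rw [hB]
    push_cast
    linarith
  have rBn := mul_le_mul_of_nonneg_right rB (by linarith : (0 : ℝ) ≤ Fintype.card Q)
  by_cases h₀ : ∀ v : List A, v.length ≤ B → Fintype.card Q ≤ rk δ v + ψ₀
  swap
  · push Not at h₀
    obtain ⟨v, hv, hr⟩ := h₀
    have hn' : 4 * 64000000 ^ 2 ≤ Fintype.card Q :=
      le_trans (Nat.mul_le_mul_left 4 (Nat.pow_le_pow_left (by omega) 2)) hn
    obtain ⟨w, hw, hl⟩ := H₀ Q A δ hsc hs hn' v (Fintype.card Q + B) ψ₀ (by omega) hr.le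
    refine ⟨w, hw, hl.trans ?_⟩
    have a1 := mul_le_mul_of_nonneg_right rM₀ r2
    have a2 := mul_le_mul_of_nonneg_left rBn hc₀
    have a3 : c₀ * (1 / (M : ℝ)) ≤ 1 / 640000000 := by
      rw [mul_one_div, div_le_iff₀ rM0]; linarith
    have a4 := mul_le_mul_of_nonneg_right a3 r3
    rw [hc]
    push_cast
    linarith
  obtain ⟨w, hw, hl⟩ := flat δ hs _ fun S hS h2 =>
    third δ hsc hs ψ₀ ψ₁ 4000 M B h01 hM₀ hM₁ le_rfl h₁ h₀ hS h2
  refine ⟨w, hw, hl.trans ?_⟩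
  have a1 := mul_le_mul_of_nonneg_right rψ₀ r2
  have a3 : 1 / (M : ℝ) ≤ 1 / 16000000 := one_div_le_one_div_of_le (by norm_num) rM
  have a4 := mul_le_mul_of_nonneg_right a3 r3
  have a5 : (Fintype.card Q : ℝ) ≤ Fintype.card Q ^ 2 := by nlinarith
  rw [hc]
  push_cast
  linarith

end Pool.Agent.MP_aef39a_lc.H46
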