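import Pool.Agent.MP_aef39a_lc.H46.Main

/-!
If short words hardly lower the rank, every set of at least two fifths of the states has a
quickly mergeable pair (two scales of the graph of mergeable pairs).
-/

namespace Pool.Agent.MP_aef39a_lc.H46

open Pool.Agent.MP_aef39a_lc

variable {Q A : Type}

theorem plateau (d : ℕ → ℕ) (n ψ M t l : ℕ) (hd : ∀ s, d s ≤ n) (hM : n < M * ψ) :
    ∃ i, i < M ∧ d (t + i * l + l) ≤ d (t + i * l) + ψ := by
  by_contra hne
  push Not at hne
  have key : ∀ i, i ≤ M → i * ψ ≤ d (t + i * l) := by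
    intro i
    induction i with
    | zero => simp
    | succ i ih =>
      intro hi
      have h1 := ih (by omega)
      have h2 := hne i (by omega)
      have e : t + (i + 1) * l = t + i * l + l := by ring
      rw [e, add_mul, one_mul]
      omega
  have h1 := key M le_rfl
  have h2 := hd (t + M * l)
  omega

theorem third_arith (k T R n a b ψ₀ ψ₁ : ℕ) (hk : 0 < k) (hn : k + T + R = n) (h5 : 2 * n ≤ 5 * k)
    (h01 : ψ₁ ≤ ψ₀) (ha : 20 * ψ₁ < a) (hb : 20 * ψ₀ < b)
    (h1 : k * a ≤ T * (a + ψ₁) + k * ψ₁)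
    (h2 : k * b ≤ T * (2 * ψ₀ + ψ₁) + R * (b + ψ₀) + k * ψ₁) : False := by
  have a1 : 19 * k ≤ 21 * T := by
    refine Nat.le_of_mul_le_mul_right (c := a) ?_ (by omega)
    have c1 : T * (20 * ψ₁) ≤ T * a := Nat.mul_le_mul_left _ ha.le
    have c2 : k * (20 * ψ₁) ≤ k * a := Nat.mul_le_mul_left _ ha.le
    nlinarith
  have a2 : 19 * k ≤ 3 * T + 21 * R := by
    refine Nat.le_of_mul_le_mul_right (c := b) ?_ (by omega)
    have c1 : T * (20 * ψ₀) ≤ T * b := Nat.mul_le_mul_left _ hb.le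
    have c2 : k * (20 * ψ₀) ≤ k * b := Nat.mul_le_mul_left _ hb.le
    have c3 : R * (20 * ψ₀) ≤ R * b := Nat.mul_le_mul_left _ hb.le
    have c4 : T * ψ₁ ≤ T * ψ₀ := Nat.mul_le_mul_left _ h01
    have c5 : k * ψ₁ ≤ k * ψ₀ := Nat.mul_le_mul_left _ h01
    nlinarith
  omega

variable [Fintype Q] [DecidableEq Q] (δ : Q → A → Q)

theorem img_nil : img δ Finset.univ [] = Finset.univ := by
  ext y
  simp [mem_img, act]

theorem rk_nil : rk δ [] = Fintype.card Q := by
  unfold rk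
  rw [img_nil, Finset.card_univ]

open Classical in
/-- Double counting of the near pairs between a far set and its complement. -/
theorem dbl (c : ℕ) {S : Finset Q} (hfar : ∀ p ∈ S, ∀ q ∈ S, p ≠ q → ¬ Near δ c p q) :
    ∑ x ∈ S, (nb δ Finset.univ c x).card =
      ∑ y ∈ Sᶜ, (S.filter fun x => Near δ c x y).card := by
  refine Eq.trans ?_ (Finset.sum_card_bipartiteAbove_eq_sum_card_bipartiteBelow
    (s := S) (t := Sᶜ) (fun x y => Near δ c x y))
  refine Finset.sum_congr rfl fun x hx => congrArg _ ?_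
  ext y
  rw [mem_nb, Finset.mem_bipartiteAbove, Finset.mem_compl]
  constructor
  · rintro ⟨_, b, c⟩
    exact ⟨fun hy => hfar x hx y hy b.symm c, c⟩
  · rintro ⟨b, c⟩
    exact ⟨Finset.mem_univ _, fun e => b (e ▸ hx), c⟩

open Classical in
theorem filt_le (c : ℕ) {S : Finset Q} {y : Q} (hy : y ∉ S) :
    (S.filter fun x => Near δ c x y).card ≤ ((nb δ Finset.univ c y).filter (· ∈ S)).card := by
  refine Finset.card_le_card fun x hx => ?_
  rw [Finset.mem_filter] at hx ⊢
  exact ⟨mem_nb.2 ⟨Finset.mem_univ _, fun e => hy (e ▸ hx.1), hx.2.symm⟩, hx.1⟩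

open Classical in
/-- Twins: a state that merges quickly with a member of a far set has few neighbours in it. -/
theorem twin (b B ψ : ℕ) (h₀ : ∀ v : List A, v.length ≤ B → Fintype.card Q ≤ rk δ v + ψ)
    {S : Finset Q} (hfar : ∀ p ∈ S, ∀ q ∈ S, p ≠ q → ¬ Near δ (b + B) p q) {p y : Q}
    (hp : p ∈ S) (hy : y ∉ S) (hn : Near δ B p y) :
    ∃ z, (S.filter fun x => Near δ (b + B) x y).card + (nb δ Finset.univ b z).card ≤
      dm δ Finset.univ (b + B) + ψ := by
  obtain ⟨w, hw, e⟩ := hn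
  refine ⟨act δ y w, ?_⟩
  have h : nb δ Finset.univ b (act δ y w) ⊆
      img δ ((nb δ Finset.univ (b + B) y).filter (¬ · ∈ S)) w ∪
        (Finset.univ \ img δ Finset.univ w) := by
    intro u hu
    rw [mem_nb] at hu
    rw [Finset.mem_union]
    by_cases hJ : u ∈ img δ Finset.univ w
    · obtain ⟨r, _, rfl⟩ := mem_img.1 hJ
      refine Or.inl (mem_img.2 ⟨r, Finset.mem_filter.2 ⟨mem_nb.2 ⟨Finset.mem_univ _, ?_,
        (hu.2.2.pull w).mono (by omega)⟩, fun hr => ?_⟩, rfl⟩)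
      · rintro rfl
        exact hu.2.1 rfl
      · refine hfar p hp r hr ?_ (((e ▸ hu.2.2 : Near δ b (act δ p w) (act δ r w)).pull w).mono
          (by omega))
        rintro rfl
        exact hu.2.1 e
    · exact Or.inr (Finset.mem_sdiff.2 ⟨hu.1, hJ⟩)
  have h1 := (Finset.card_le_card h).trans (Finset.card_union_le _ _)
  have h2 := card_img_le δ ((nb δ Finset.univ (b + B) y).filter (¬ · ∈ S)) w
  have h3 := filt_le δ (b + B) hy
  have h4 := Finset.card_filter_add_card_filter_not (s := nb δ Finset.univ (b + B) y) (· ∈ S)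
  have h5 := le_dm δ (b + B) (Finset.mem_univ y)
  have h6 := h₀ w hw
  rw [Finset.card_sdiff_of_subset (Finset.subset_univ _), Finset.card_univ] at h1
  unfold rk at h6
  omega

/-- Two scales: a set of two fifths of the states has a near pair. -/
theorem third [Nonempty Q] (hsc : StronglyConnected δ) (hs : ∃ w, IsReset δ w)
    (ψ₀ ψ₁ M₀ M₁ B : ℕ) (h01 : ψ₁ ≤ ψ₀) (hM₀ : Fintype.card Q < M₀ * ψ₀)
    (hM₁ : Fintype.card Q < M₁ * ψ₁)
    (hB : Fintype.card Q * (20 * ψ₁) + 1 + Fintype.card Q + M₁ * Fintype.card Q ≤ B)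
    (h₁ : ∀ v : List A, v.length ≤ Fintype.card Q → Fintype.card Q ≤ rk δ v + ψ₁)
    (h₀ : ∀ v : List A, v.length ≤ B → Fintype.card Q ≤ rk δ v + ψ₀)
    {S : Finset Q} (hS : 2 * Fintype.card Q ≤ 5 * S.card) (h2 : 2 ≤ S.card) :
    ∃ p ∈ S, ∃ q ∈ S, p ≠ q ∧ Near δ (Fintype.card Q * (20 * ψ₀) + 1 + Fintype.card Q +
      M₀ * (Fintype.card Q + B)) p q := by
  classical
  by_contra hne
  push Not at hne
  have hψ : ∀ v : List A, v.length ≤ ([] : List A).length + Fintype.card Q →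
      rk δ [] ≤ rk δ ([] ++ v) + ψ₁ := by
    intro v hv
    rw [rk_nil, List.nil_append]
    exact h₁ v (by simpa using hv)
  have hreg : ∀ t x, dm δ Finset.univ t ≤ (nb δ Finset.univ (t + Fintype.card Q) x).card + ψ₁ := by
    intro t x
    refine Finset.sup_le fun z _ => ?_
    have := reg δ hsc [] ψ₁ hψ t (z := z) (by rw [img_nil]; exact Finset.mem_univ _) x
    rw [img_nil] at this
    simpa using this
  obtain ⟨p₀, hp₀, q₀, hq₀, hpq₀⟩ := Finset.one_lt_card.1 h2
  have hdeg : ∀ D, D ≤ 20 * ψ₀ →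
      D < dm δ Finset.univ (Fintype.card Q * D + 1 + Fintype.card Q) := by
    intro D hD
    by_contra hle
    have h1 : Fintype.card Q * D ≤ Fintype.card Q * (20 * ψ₀) := Nat.mul_le_mul_left _ hD
    have := count δ hsc [] ψ₁ hψ hs (Fintype.card Q * D + 1) D
      (by rw [img_nil]; omega) (p := p₀) (q := q₀)
      fun h => hne p₀ hp₀ q₀ hq₀ hpq₀ (h.mono (by omega))
    rw [rk_nil, Nat.sub_self, zero_mul] at this
    omega
  have hd : ∀ s, dm δ Finset.univ s ≤ Fintype.card Q := fun s => dm_le δ _ s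
  obtain ⟨i, hi, hpl₁⟩ := plateau (dm δ Finset.univ) _ ψ₁ M₁
    (Fintype.card Q * (20 * ψ₁) + 1 + Fintype.card Q) (Fintype.card Q) hd hM₁
  obtain ⟨j, hj, hpl₀⟩ := plateau (dm δ Finset.univ) _ ψ₀ M₀
    (Fintype.card Q * (20 * ψ₀) + 1 + Fintype.card Q) (Fintype.card Q + B) hd hM₀
  have hi' : (i + 1) * Fintype.card Q ≤ M₁ * Fintype.card Q := Nat.mul_le_mul_right _ hi
  have hj' : (j + 1) * (Fintype.card Q + B) ≤ M₀ * (Fintype.card Q + B) :=
    Nat.mul_le_mul_right _ hj
  rw [add_mul, one_mul] at hi' hj'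
  have ha := (hdeg (20 * ψ₁) (by omega)).trans_le
    (dm_mono δ Finset.univ (Nat.le_add_right _ (i * Fintype.card Q)))
  have hb := (hdeg (20 * ψ₀) le_rfl).trans_le
    (dm_mono δ Finset.univ (Nat.le_add_right _ (j * (Fintype.card Q + B))))
  set a := Fintype.card Q * (20 * ψ₁) + 1 + Fintype.card Q + i * Fintype.card Q with hadef
  set b := Fintype.card Q * (20 * ψ₀) + 1 + Fintype.card Q + j * (Fintype.card Q + B) with hbdef
  have haB : a + Fintype.card Q ≤ B := by omega
  have hfc : ∀ p ∈ S, ∀ q ∈ S, p ≠ q → ¬ Near δ (b + Fintype.card Q + B) p q :=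
    fun p hp q hq hpq hn => hne p hp q hq hpq (hn.mono (by omega))
  have hfa : ∀ p ∈ S, ∀ q ∈ S, p ≠ q → ¬ Near δ (a + Fintype.card Q) p q :=
    fun p hp q hq hpq hn => hfc p hp q hq hpq (hn.mono (by omega))
  rw [← add_assoc] at hpl₀
  let P : Q → Prop := fun y => ∃ p ∈ S, Near δ (a + Fintype.card Q) p y
  have hlow : ∀ t s, t + Fintype.card Q ≤ s → S.card * dm δ Finset.univ t ≤
      ∑ x ∈ S, (nb δ Finset.univ s x).card + S.card * ψ₁ := by
    intro t s hts
    rw [← smul_eq_mul, ← smul_eq_mul, ← Finset.sum_const, ← Finset.sum_const,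
      ← Finset.sum_add_distrib]
    exact Finset.sum_le_sum fun x _ =>
      (hreg t x).trans (Nat.add_le_add_right (nb_mono δ _ hts x) _)
  have hup : ∀ s, ∀ y ∈ Sᶜ, (S.filter fun x => Near δ s x y).card ≤ dm δ Finset.univ s :=
    fun s y hy => (filt_le δ s (Finset.mem_compl.1 hy)).trans
      ((Finset.card_filter_le _ _).trans (le_dm δ s (Finset.mem_univ y)))
  have c1 := hlow a _ le_rfl
  have c2 := hlow b (b + Fintype.card Q + B) (by omega)
  rw [dbl δ _ hfa, ← Finset.sum_filter_add_sum_filter_not Sᶜ P] at c1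
  rw [dbl δ _ hfc, ← Finset.sum_filter_add_sum_filter_not Sᶜ P] at c2
  have d1 : ∑ y ∈ Sᶜ.filter P, (S.filter fun x => Near δ (a + Fintype.card Q) x y).card ≤
      (Sᶜ.filter P).card * (dm δ Finset.univ a + ψ₁) := by
    rw [← smul_eq_mul, ← Finset.sum_const]
    exact Finset.sum_le_sum fun y hy => (hup _ y (Finset.mem_filter.1 hy).1).trans hpl₁
  have d2 : ∑ y ∈ Sᶜ.filter (¬ P ·), (S.filter fun x => Near δ (a + Fintype.card Q) x y).card =
      0 := by
    refine Finset.sum_eq_zero fun y hy => ?_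
    rw [Finset.card_eq_zero, Finset.filter_eq_empty_iff]
    exact fun x hx hn => (Finset.mem_filter.1 hy).2 ⟨x, hx, hn⟩
  have d3 : ∑ y ∈ Sᶜ.filter P, (S.filter fun x => Near δ (b + Fintype.card Q + B) x y).card ≤
      (Sᶜ.filter P).card * (2 * ψ₀ + ψ₁) := by
    rw [← smul_eq_mul, ← Finset.sum_const]
    refine Finset.sum_le_sum fun y hy => ?_
    rw [Finset.mem_filter, Finset.mem_compl] at hy
    obtain ⟨hy, p, hp, hn⟩ := hy
    obtain ⟨z, hz⟩ := twin δ (b + Fintype.card Q) B ψ₀ h₀ hfc hp hy (hn.mono haB)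
    have := hreg b z
    omega
  have d4 : ∑ y ∈ Sᶜ.filter (¬ P ·), (S.filter fun x => Near δ (b + Fintype.card Q + B) x y).card
      ≤ (Sᶜ.filter (¬ P ·)).card * (dm δ Finset.univ b + ψ₀) := by
    rw [← smul_eq_mul, ← Finset.sum_const]
    exact Finset.sum_le_sum fun y hy => (hup _ y (Finset.mem_filter.1 hy).1).trans hpl₀
  have d5 := Finset.card_filter_add_card_filter_not (s := Sᶜ) P
  have d6 := Finset.card_add_card_compl S
  refine third_arith S.card (Sᶜ.filter P).card (Sᶜ.filter (¬ P ·)).card (Fintype.card Q)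
    _ _ ψ₀ ψ₁ (by omega) (by omega) hS h01 ha hb
    (c1.trans (Nat.add_le_add_right ((Nat.add_le_add ?_ (le_of_eq ?_)).trans
      (Nat.add_zero _).le) _))
    (c2.trans (Nat.add_le_add_right (Nat.add_le_add ?_ ?_) _))
  · convert d1
  · convert d2
  · convert d3
  · convert d4

end Pool.Agent.MP_aef39a_lc.H46
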